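import Pool.Agent.H889R3.SA.Stmts
import Pool.Agent.H572R4.QB.Reveal2

set_option autoImplicit false

/-! Task E of project H889-SA: revealing a coordinate. -/

namespace Pool.Agent.H996R3.SA

open Finset Pool.Agent.H572R2 Pool.Agent.H572R4.QA Pool.Agent.H889R3.SA

variable {N : ℕ}

theorem E_dd_rs (f : (Fin N → Bool) → ℝ) (i j : Fin N) (hij : i ≠ j) :
    EE (dd (rs j true f) i) + EE (dd (rs j false f) i) = 2 * EE (dd f i) := by
  have h : ∀ b, dd (rs j b f) i = rs j b (dd f i) := by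
    intro b
    funext x
    unfold dd rs
    have e : Function.update (flp i x) j b = flp i (Function.update x j b) := by
      unfold flp
      rw [Function.update_comm hij, Function.update_of_ne hij]
    rw [e]
  rw [h, h]
  exact EE_rs (dd f i) j

theorem E_term (f : (Fin N → Bool) → ℝ) (w : Fin N → (Fin N → Bool) → ℝ)
    (γ ε : ℝ) (T : ℕ) (ca m0 K S cr s' : ℝ) (A : Finset (Fin N)) (j : Fin N) :
    (Phi3 γ ε T ca m0 K S cr s' (rs j true f) (fun i => rs j true (w i)) (A.erase j)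
      + Phi3 γ ε T ca m0 K S cr s' (rs j false f) (fun i => rs j false (w i)) (A.erase j)) / 2
      = 1 / (4 * ca * (m0 * Real.exp ((5 + 4 * Real.log K) * s'))) *
          ((Yh γ ε T (rs j true f) (A.erase j) + Yh γ ε T (rs j false f) (A.erase j)) / 2)
        + ca * ∑ i ∈ A.erase j, EE (w i) + cr * (S - s')
        + th γ ε T / 4 * ∑ i ∈ A.erase j, EE (dd f i) := by
  have e2 : ∑ i ∈ A.erase j, EE (dd (rs j true f) i)
      + ∑ i ∈ A.erase j, EE (dd (rs j false f) i)
      = 2 * ∑ i ∈ A.erase j, EE (dd f i) := by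
    rw [← Finset.sum_add_distrib, Finset.mul_sum]
    refine Finset.sum_congr rfl fun i hi => ?_
    exact E_dd_rs f i j (Finset.ne_of_mem_erase hi)
  have e3 : ∑ i ∈ A.erase j, EE (rs j true (w i)) + ∑ i ∈ A.erase j, EE (rs j false (w i))
      = 2 * ∑ i ∈ A.erase j, EE (w i) := by
    rw [← Finset.sum_add_distrib, Finset.mul_sum]
    refine Finset.sum_congr rfl fun i _ => ?_
    exact EE_rs (w i) j
  unfold Phi3
  generalize 1 / (4 * ca * (m0 * Real.exp ((5 + 4 * Real.log K) * s'))) = c1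
  have f2 : ∑ i ∈ A.erase j, EE (dd (rs j false f) i) =
      2 * ∑ i ∈ A.erase j, EE (dd f i)
        - ∑ i ∈ A.erase j, EE (dd (rs j true f) i) := by linarith
  have f3 : ∑ i ∈ A.erase j, EE (rs j false (w i)) =
      2 * ∑ i ∈ A.erase j, EE (w i) - ∑ i ∈ A.erase j, EE (rs j true (w i)) := by linarith
  rw [f2, f3]
  ring

theorem taskE : TaskE := by
  intro N f w ε k s₀ H hε hk hs₀ γ hγ T hT ca m0 K S cr s hca hm0 hK hs n hsS hsmall hcr A hcard ha
  have hth : 0 < th γ ε T := by unfold th; positivity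
  have hlogK : 0 ≤ Real.log K := Real.log_nonneg hK
  have hK0 : 0 < K := by linarith
  have hn1 : (1 : ℝ) ≤ (n : ℝ) + 1 := by
    have : (0 : ℝ) ≤ n := Nat.cast_nonneg n
    linarith
  have haN : (A.card : ℝ) ≤ (n : ℝ) + 1 := by exact_mod_cast hcard
  obtain ⟨L, hL⟩ : ∃ L, L = 5 + 4 * Real.log K := ⟨_, rfl⟩
  have hL0 : 0 ≤ L := by rw [hL]; positivity
  obtain ⟨m, hm⟩ : ∃ m, m = m0 * Real.exp (L * s) := ⟨_, rfl⟩
  have hm0' : 0 < m := by rw [hm]; positivity
  have hmm : m0 ≤ m := by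
    rw [hm]
    have : 1 ≤ Real.exp (L * s) := Real.one_le_exp (by positivity)
    nlinarith
  obtain ⟨src, hsrc⟩ : ∃ src, src = 4 / 5 * (1 / 2 : ℝ) ^ T * (s₀ / γ)
    + 16 * (k / (4 * ε ^ 2)) * m / K * (s₀ / γ) := ⟨_, rfl⟩
  have hsrc0 : 0 ≤ src := by rw [hsrc]; positivity
  have hY0 : 0 ≤ Yh γ ε T f A := by
    unfold Yh
    exact Finset.sum_nonneg fun t _ => mul_nonneg (by positivity)
      (Finset.sum_nonneg fun i _ => sq_nonneg _)
  have hYs : (∑ j ∈ A, (Yh γ ε T (rs j true f) (A.erase j) +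
      Yh γ ε T (rs j false f) (A.erase j)) / 2) ≤
      ((A.card : ℝ) + (L - 11 / 5)) * Yh γ ε T f A + src := by
    rcases A.eq_empty_or_nonempty with hA | hA
    · have h1 : 0 ≤ ((A.card : ℝ) + (L - 11 / 5)) * Yh γ ε T f A := by
        apply mul_nonneg _ hY0
        have : (0 : ℝ) ≤ A.card := Nat.cast_nonneg _
        rw [hL]
        linarith
      rw [hA, Finset.sum_empty]
      rw [hA] at h1
      linarith
    · have hyav := yh_avg H hε hk γ hγ T hT K hK A hA m hm0'.le (by rw [hm, hL]; exact ha)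
      rw [← hsrc] at hyav
      have hc : (0 : ℝ) < A.card := by exact_mod_cast hA.card_pos
      rw [div_le_iff₀ hc] at hyav
      refine hyav.trans (le_of_eq ?_)
      rw [hL]
      field_simp
      ring
  -- the sum of the squares of the influences
  have hD : ∑ j ∈ A, EE (dd f j) ^ 2 ≤ 2 * th γ ε T * s₀ + 2 * Yh γ ε T f A := by
    have h1 : ∑ j ∈ A, EE (dd f j) ^ 2 ≤
        ∑ j ∈ A, (2 * th γ ε T * EE (dd f j) + 2 * pp f (th γ ε T) j ^ 2) :=
      Finset.sum_le_sum fun j _ => dd_sq_le H _ hth j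
    rw [Finset.sum_add_distrib, ← Finset.mul_sum, ← Finset.mul_sum] at h1
    have h2 : ∑ j ∈ A, EE (dd f j) ≤ s₀ := by
      rw [← EE_sum]
      calc EE (fun x => ∑ j ∈ A, dd f j x) ≤ EE (fun _ => s₀) := by
            apply EE_mono
            intro x
            refine le_trans ?_ (H.infl x)
            exact Finset.sum_le_sum_of_subset_of_nonneg (Finset.subset_univ _)
              (fun i _ _ => abs_nonneg _)
        _ = s₀ := EE_const _
    have h3 : ∑ j ∈ A, pp f (th γ ε T) j ^ 2 ≤ Yh γ ε T f A := by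
      unfold Yh
      have h4 : T - 1 ∈ Finset.range T := Finset.mem_range.2 (by omega)
      have h5 := Finset.single_le_sum (f := fun t => (1 / 2 : ℝ) ^ (T - 1 - t) *
        ∑ i ∈ A, pp f (th γ ε (t + 1)) i ^ 2)
        (fun t _ => mul_nonneg (by positivity) (Finset.sum_nonneg fun i _ => sq_nonneg _)) h4
      simp only [Nat.sub_self, pow_zero, one_mul, Nat.sub_add_cancel hT] at h5
      exact h5
    have h4 : 2 * th γ ε T * ∑ j ∈ A, EE (dd f j) ≤ 2 * th γ ε T * s₀ :=
      mul_le_mul_of_nonneg_left h2 (by positivity)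
    linarith
  have hD0 : 0 ≤ ∑ i ∈ A, EE (dd f i) :=
    Finset.sum_nonneg fun i _ => EE_nonneg fun x => abs_nonneg _
  have hW0 : 0 ≤ ∑ i ∈ A, EE (w i) := Finset.sum_nonneg fun i _ => EE_nonneg (H.w0 i)
  -- rewrite the left side
  rw [div_le_iff₀ (by linarith : (0 : ℝ) < (n : ℝ) + 1)]
  rw [Finset.sum_congr rfl (fun j _ => by
    rw [E_term f w γ ε T ca m0 K S cr (s + 1 / ((n : ℝ) + 1)) A j])]
  simp only [Finset.sum_add_distrib]
  have hD4 : ∑ x ∈ A, EE (dd f x) ^ 2 / 4 = (∑ x ∈ A, EE (dd f x) ^ 2) / 4 := by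
    rw [Finset.sum_div]
  rw [← Finset.mul_sum, ← Finset.mul_sum, ← Finset.mul_sum, ← Finset.mul_sum, reveal_sum,
    reveal_sum, Finset.sum_const, nsmul_eq_mul, hD4]
  unfold Phi3
  rw [← hL]
  generalize ∑ i ∈ A, EE (w i) = Wt at *
  generalize ∑ j ∈ A, EE (dd f j) = D1 at *
  generalize Yh γ ε T f A = Y at *
  generalize ∑ j ∈ A, EE (dd f j) ^ 2 = D at *
  generalize ∑ j ∈ A, (Yh γ ε T (rs j true f) (A.erase j) +
    Yh γ ε T (rs j false f) (A.erase j)) / 2 = Ys at *
  generalize (A.card : ℝ) = a at *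
  generalize (n : ℝ) + 1 = q at *
  have hq0 : 0 < q := by linarith
  obtain ⟨Cy, hCy⟩ : ∃ Cy, Cy = 1 / (4 * ca * m) := ⟨_, rfl⟩
  have hCy0 : 0 < Cy := by rw [hCy]; positivity
  have hsS' : s ≤ S := by
    have : 0 ≤ 1 / q := by positivity
    linarith
  have hCy1 : 1 ≤ Cy := by
    rw [hCy, le_div_iff₀ (by positivity), one_mul]
    refine le_trans ?_ hsmall
    rw [← hL]
    have h1 : m ≤ m0 * Real.exp (L * S) := by
      rw [hm]
      have : Real.exp (L * s) ≤ Real.exp (L * S) :=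
        Real.exp_le_exp.2 (mul_le_mul_of_nonneg_left hsS' hL0)
      exact mul_le_mul_of_nonneg_left this hm0.le
    exact mul_le_mul_of_nonneg_left h1 (by positivity)
  have hC' : 1 / (4 * ca * (m0 * Real.exp (L * (s + 1 / q)))) = Cy * Real.exp (-(L / q)) := by
    rw [hCy, hm, Real.exp_neg, show L * (s + 1 / q) = L * s + L / q by ring, Real.exp_add]
    field_simp
  have hexp1 : Real.exp (-(L / q)) ≤ 1 := by
    rw [Real.exp_le_one_iff]
    have : 0 ≤ L / q := by positivity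
    linarith
  have hexp0 := Real.exp_pos (-(L / q))
  -- step A
  have hA1 : Cy * Real.exp (-(L / q)) * ((q - a) * Y + Ys) ≤ Cy * (q * Y - Y / 2) + Cy * src := by
    have h1 : (q - a) * Y + Ys ≤ q * ((1 + (L - 11 / 5) / q) * Y) + src := by
      have e : q * ((1 + (L - 11 / 5) / q) * Y) = (q + (L - 11 / 5)) * Y := by
        field_simp
      rw [e]
      linarith
    have h2 : Real.exp (-(L / q)) * (1 + (L - 11 / 5) / q) * Y ≤ (1 - 1 / (2 * q)) * Y :=
      mul_le_mul_of_nonneg_right (reveal_exp q L hn1) hY0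
    have h3 : Real.exp (-(L / q)) * src ≤ 1 * src :=
      mul_le_mul_of_nonneg_right hexp1 hsrc0
    have h4 : Real.exp (-(L / q)) * ((q - a) * Y + Ys) ≤ (q * Y - Y / 2) + src := by
      calc Real.exp (-(L / q)) * ((q - a) * Y + Ys)
          ≤ Real.exp (-(L / q)) * (q * ((1 + (L - 11 / 5) / q) * Y) + src) :=
            mul_le_mul_of_nonneg_left h1 hexp0.le
        _ = q * (Real.exp (-(L / q)) * (1 + (L - 11 / 5) / q) * Y)
            + Real.exp (-(L / q)) * src := by ring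
        _ ≤ q * ((1 - 1 / (2 * q)) * Y) + 1 * src :=
            add_le_add (mul_le_mul_of_nonneg_left h2 hq0.le) h3
        _ = _ := by field_simp
    calc Cy * Real.exp (-(L / q)) * ((q - a) * Y + Ys)
        = Cy * (Real.exp (-(L / q)) * ((q - a) * Y + Ys)) := by ring
      _ ≤ Cy * ((q * Y - Y / 2) + src) := mul_le_mul_of_nonneg_left h4 hCy0.le
      _ = _ := by ring
  have hE1 : Y / 2 ≤ Cy * (Y / 2) := by
    have : 0 ≤ Y / 2 := by positivity
    nlinarith
  -- step F
  have hF1 : Cy * src + th γ ε T * s₀ / 2 ≤ cr := by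
    refine le_trans ?_ hcr
    have h2 : Cy * src = 4 * (k / (4 * ε ^ 2)) * (s₀ / γ) / (ca * K)
        + (1 / 2 : ℝ) ^ T * (s₀ / γ) / (5 * ca * m) := by
      rw [hCy, hsrc]
      field_simp
      ring
    have h3 : (1 / 2 : ℝ) ^ T * (s₀ / γ) / (5 * ca * m) ≤
        (1 / 2 : ℝ) ^ T * (s₀ / γ) / (5 * ca * m0) := by
      apply div_le_div_of_nonneg_left (by positivity) (by positivity)
      exact mul_le_mul_of_nonneg_left hmm (by positivity)
    rw [h2]
    linarith
  rw [hC', ← hm, ← hCy]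
  have hW1 : 0 ≤ ca * Wt := by positivity
  have hD1 : 0 ≤ th γ ε T / 4 * D1 := by positivity
  have e1 : q * (cr * (S - (s + 1 / q))) = q * (cr * (S - s)) - cr := by
    field_simp
    ring
  have e2 : (q - a) * (Cy * Real.exp (-(L / q)) * Y + ca * Wt + cr * (S - (s + 1 / q))
        + th γ ε T / 4 * D1)
      + (Cy * Real.exp (-(L / q)) * Ys + ca * (a * Wt - Wt) + cr * (a * (S - (s + 1 / q)))
        + th γ ε T / 4 * (a * D1 - D1) + D / 4)
      = Cy * Real.exp (-(L / q)) * ((q - a) * Y + Ys) + (q * (ca * Wt) - ca * Wt)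
        + q * (cr * (S - (s + 1 / q))) + (q * (th γ ε T / 4 * D1) - th γ ε T / 4 * D1) + D / 4 := by
    ring
  rw [e2, e1]
  have e3 : (Cy * Y + ca * Wt + cr * (S - s) + th γ ε T / 4 * D1) * q
      = Cy * (q * Y) + q * (ca * Wt) + q * (cr * (S - s)) + q * (th γ ε T / 4 * D1) := by ring
  rw [e3]
  have e4 : Cy * (q * Y - Y / 2) = Cy * (q * Y) - Cy * (Y / 2) := by ring
  rw [e4] at hA1
  have hD2 : D / 4 ≤ th γ ε T * s₀ / 2 + Y / 2 := by linarith
  linarith

end Pool.Agent.H996R3.SA
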